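import Pool.Agent.Lib.MP_af3a4a_an.P1.CHK.DATA.N44x45.K0
import Pool.Agent.Lib.MP_af3a4a_an.P1.CHK.DATA.N44x45.K1
import Pool.Agent.Lib.MP_af3a4a_an.P1.CHK.DATA.N44x45.K2
import Pool.Agent.Lib.MP_af3a4a_an.P1.CHK.DATA.N44x45.K3

/-! glue for 44 <= N <= 45 (generated) -/

set_option autoImplicit false
set_option maxRecDepth 100000

namespace Pool.Agent.Lib.MP_af3a4a_an.P1.CHK.DATA.N44x45

open BOX

theorem g0 : ChunkP 44 45 0 512 0 101 0 2484 := ChunkP.g k0 k1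
theorem g1 : ChunkP 44 45 768 1024 80 96 1248 2484 := ChunkP.g k12 k13
theorem g2 : ChunkP 44 45 768 1024 80 96 1200 2484 := ChunkP.R k11 g1
theorem g3 : ChunkP 44 45 768 1024 80 96 1104 2484 := ChunkP.R k10 g2
theorem g4 : ChunkP 44 45 768 1024 80 96 960 2484 := ChunkP.R k9 g3
theorem g5 : ChunkP 44 45 768 1024 80 96 672 2484 := ChunkP.R k8 g4
theorem g6 : ChunkP 44 45 512 1024 80 96 672 2484 := ChunkP.r k7 g5
theorem g7 : ChunkP 44 45 512 1024 80 96 624 2484 := ChunkP.R k6 g6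
theorem g8 : ChunkP 44 45 512 1024 80 96 576 2484 := ChunkP.R k5 g7
theorem g9 : ChunkP 44 45 512 1024 80 96 0 2484 := ChunkP.R k4 g8
theorem g10 : ChunkP 44 45 512 1024 64 96 0 2484 := ChunkP.g k3 g9
theorem g11 : ChunkP 44 45 512 1024 64 101 0 2484 := ChunkP.g g10 k14
theorem g12 : ChunkP 44 45 512 1024 0 101 0 2484 := ChunkP.g k2 g11
theorem g13 : ChunkP 44 45 0 1024 0 101 0 2484 := ChunkP.r g0 g12
theorem g14 : ChunkP 44 45 1024 1536 64 80 528 2484 := ChunkP.r k18 k19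
theorem g15 : ChunkP 44 45 1024 1536 64 80 432 2484 := ChunkP.R k17 g14
theorem g16 : ChunkP 44 45 1024 1536 64 80 0 2484 := ChunkP.R k16 g15
theorem g17 : ChunkP 44 45 1024 1536 80 96 528 2484 := ChunkP.r k22 k23
theorem g18 : ChunkP 44 45 1024 1536 80 96 432 2484 := ChunkP.R k21 g17
theorem g19 : ChunkP 44 45 1024 1536 80 96 0 2484 := ChunkP.R k20 g18
theorem g20 : ChunkP 44 45 1024 1536 64 96 0 2484 := ChunkP.g g16 g19
theorem g21 : ChunkP 44 45 1024 1536 64 101 0 2484 := ChunkP.g g20 k24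
theorem g22 : ChunkP 44 45 1024 1536 0 101 0 2484 := ChunkP.g k15 g21
theorem g23 : ChunkP 44 45 1536 2048 64 96 0 2484 := ChunkP.g k26 k27
theorem g24 : ChunkP 44 45 1536 2048 64 101 0 2484 := ChunkP.g g23 k28
theorem g25 : ChunkP 44 45 1536 2048 0 101 0 2484 := ChunkP.g k25 g24
theorem g26 : ChunkP 44 45 1024 2048 0 101 0 2484 := ChunkP.r g22 g25
theorem g27 : ChunkP 44 45 0 2048 0 101 0 2484 := ChunkP.r g13 g26
theorem g28 : ChunkP 44 45 2048 3072 0 101 0 2484 := ChunkP.r k29 k30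
theorem g29 : ChunkP 44 45 2048 4096 0 101 0 2484 := ChunkP.r g28 k31
theorem g30 : ChunkP 44 45 0 4096 0 101 0 2484 := ChunkP.r g27 g29

/-- the whole box -/
theorem allBox : ChunkP 44 45 0 4096 0 101 0 2484 := g30

theorem full {N : ℕ} (hNa : 44 ≤ N) (hNb : N ≤ 45) {z w : Fin N → ℂ} {R : ℝ} {σ : Fin N → ℂ}
    (hC : Pool.Agent.Lib.MP_af3a4a_an.P1.H80.Cfg2 N z w R σ) : ((2484 : ℕ) : ℝ) / 1024 < R := ChunkP.full allBox hNa hNb hC

end Pool.Agent.Lib.MP_af3a4a_an.P1.CHK.DATA.N44x45
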